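import Pool.Agent.H88.Sick3

open Pool.Agent.H88.Sick TopologicalSpace

universe u v

theorem Pool.Agent.Results.MP_013c33_an.Yes.result
    (K : Type u) [TopologicalSpace K] [CompactSpace K] [T2Space K] (H : IsSick.{u, v} K) :
    CompactSpace {φ : Clopens K → Bool // IsUlt φ} ∧
      IsSick.{u, v} {φ : Clopens K → Bool // IsUlt φ} :=
  ⟨st_compact, stone H⟩
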